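import Mathlib

set_option autoImplicit false
set_option linter.unusedSectionVars false

/-!
# Serre's condition `(S_ℓ)` after removing an excellent set of faces

If `A` is an excellent set of faces of a finite simplicial complex `Δ` and `Δ` satisfies `(S_ℓ)`
over `k`, then the complex `Δ_A` obtained by removing all the faces that contain an element of `A`
satisfies `(S_ℓ)` over `k`.

Serre's condition is used in its homological form (Terai; Schenzel, Yanagawa): `k[Δ]` satisfies
`(S_ℓ)` if and only if `H̃_i(lk_Δ F; k) = 0` for every face `F` (the empty face included) and every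
`i < min (ℓ - 1, dim lk_Δ F)`.
-/

namespace Pool.Agent.Results.MP_346585_al.SerreExcellent

open Finset

variable {V : Type*} [Fintype V] [LinearOrder V]

/-- A set of finite sets of vertices is a simplicial complex if it is closed under subsets. -/
def IsComplex (Δ : Set (Finset V)) : Prop := ∀ F ∈ Δ, ∀ G, G ⊆ F → G ∈ Δ

/-- The link of `F` in `Δ`: the sets `G` disjoint from `F` with `F ∪ G ∈ Δ`. -/
def link (Δ : Set (Finset V)) (F : Finset V) : Set (Finset V) :=
  {G | Disjoint F G ∧ F ∪ G ∈ Δ}

/-- The boundary map of simplicial chains. A chain `∑_T c_T [T]` is written as the family of its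
coefficients; the coefficient of `[T]` in the boundary of `c` is
`∑_{t ∉ T} (-1)^{#{s ∈ T : s < t}} c_{T ∪ {t}}`, so that
`∂ [v_0, ..., v_i] = ∑_j (-1)^j [v_0, ..., (omit v_j), ..., v_i]` for `v_0 < ... < v_i`. -/
def bd {k : Type*} [Field k] (c : Finset V → k) : Finset V → k :=
  fun T => ∑ t ∈ univ \ T, (-1) ^ (T.filter (· < t)).card * c (insert t T)

/-- `c` is a chain of `Γ` supported on the faces with `j` elements. -/
def IsChain {k : Type*} [Field k] (Γ : Set (Finset V)) (j : ℕ) (c : Finset V → k) : Prop :=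
  ∀ T, c T ≠ 0 → T ∈ Γ ∧ T.card = j

/-- `H̃_{j-1}(Γ; k) = 0`: every reduced cycle supported on the faces with `j` elements (that is, on
the faces of dimension `j - 1`) is a boundary. -/
def VanishingHomology (k : Type*) [Field k] (Γ : Set (Finset V)) (j : ℕ) : Prop :=
  ∀ c : Finset V → k, IsChain Γ j c → bd c = 0 → ∃ b, IsChain Γ (j + 1) b ∧ bd b = c

/-- Serre's condition `(S_ℓ)` over `k` in its homological form: for every face `F` of `Δ`,
`H̃_i(lk_Δ F; k) = 0` for all `i < min (ℓ - 1, dim lk_Δ F)`. Here `i = j - 1`, so that `i < ℓ - 1`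
reads `j < ℓ`, and `i < dim lk_Δ F` says that some face of `lk_Δ F` has more than `j` elements. -/
def Serre (k : Type*) [Field k] (Δ : Set (Finset V)) (ℓ : ℕ) : Prop :=
  ∀ F ∈ Δ, ∀ j, j < ℓ → (∃ G ∈ link Δ F, j < G.card) → VanishingHomology k (link Δ F) j

/-- `A` is an independent set of faces of `Δ`. -/
def Independent (Δ A : Set (Finset V)) : Prop :=
  A ⊆ Δ ∧ ∀ σ ∈ A, ∀ τ ∈ A, σ ≠ τ → σ ∪ τ ∉ Δ

/-- `A` is excellent: it is independent and every facet of `Δ` contains an element of `A`. -/
def Excellent (Δ A : Set (Finset V)) : Prop :=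
  Independent Δ A ∧ ∀ F, Maximal (· ∈ Δ) F → ∃ σ ∈ A, σ ⊆ F

/-- The complex `Δ_A`: the faces of `Δ` that contain no element of `A`. -/
def removal (Δ A : Set (Finset V)) : Set (Finset V) := {T | T ∈ Δ ∧ ∀ σ ∈ A, ¬ σ ⊆ T}

variable {k : Type*} [Field k]

/-! ### Signs -/

variable (k) in
/-- The sign of a vertex `u` before `t`. -/
def s1 (u t : V) : k := if u < t then -1 else 1

variable (k) in
/-- The sign `(-1)^{#{u ∈ T : u < t}}` as a product. -/
def sg (t : V) (T : Finset V) : k := ∏ u ∈ T, s1 k u t

variable (k) in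
/-- The sign of the shuffle of `τ` and `H`. -/
def ep (τ H : Finset V) : k := ∏ s ∈ τ, ∏ h ∈ H, s1 k h s

lemma pow_eq_sg (t : V) (T : Finset V) : (-1 : k) ^ (T.filter (· < t)).card = sg k t T := by
  unfold sg s1
  rw [Finset.prod_ite]
  simp

lemma bd_apply (c : Finset V → k) (T : Finset V) :
    bd c T = ∑ t ∈ univ \ T, sg k t T * c (insert t T) := by
  unfold bd
  exact Finset.sum_congr rfl (fun t _ => by rw [pow_eq_sg])

lemma s1_mul_self (u t : V) : s1 k u t * s1 k u t = 1 := by
  unfold s1; split_ifs <;> simp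

lemma s1_mul_s1 (u t : V) (h : u ≠ t) : s1 k u t * s1 k t u = -1 := by
  unfold s1
  rcases lt_or_gt_of_ne h with h' | h'
  · rw [if_pos h', if_neg (asymm h')]; simp
  · rw [if_neg (asymm h'), if_pos h']; simp

lemma ep_mul_self (τ H : Finset V) : ep k τ H * ep k τ H = 1 := by
  unfold ep
  rw [← Finset.prod_mul_distrib]
  refine Finset.prod_eq_one (fun s _ => ?_)
  rw [← Finset.prod_mul_distrib]
  exact Finset.prod_eq_one (fun h _ => s1_mul_self _ _)

lemma sg_insert (t u : V) (T : Finset V) (h : u ∉ T) :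
    sg k t (insert u T) = s1 k u t * sg k t T := by
  unfold sg; rw [Finset.prod_insert h]

lemma sign_rel (t : V) (τ H : Finset V) (hd : Disjoint τ H) (ht : t ∉ τ) (ht' : t ∉ H) :
    sg k t (τ ∪ H) * ep k τ (insert t H) = (-1) ^ τ.card * (ep k τ H * sg k t H) := by
  have h1 : sg k t (τ ∪ H) = sg k t τ * sg k t H := by
    unfold sg; rw [Finset.prod_union hd]
  have h2 : ep k τ (insert t H) = (∏ s ∈ τ, s1 k t s) * ep k τ H := by
    unfold ep
    rw [← Finset.prod_mul_distrib]
    exact Finset.prod_congr rfl (fun s _ => by rw [Finset.prod_insert ht'])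
  have h3 : sg k t τ * (∏ s ∈ τ, s1 k t s) = (-1) ^ τ.card := by
    unfold sg
    rw [← Finset.prod_mul_distrib, ← Finset.prod_const]
    exact Finset.prod_congr rfl (fun s hs => s1_mul_s1 s t (fun h => ht (h ▸ hs)))
  rw [h1, h2, ← h3]; ring

/-! ### The boundary map -/

lemma bd_bd (c : Finset V → k) : bd (bd c) = 0 := by
  funext T
  rw [bd_apply]
  have h1 : ∀ t ∈ univ \ T, sg k t T * bd c (insert t T) =
      ∑ u ∈ univ \ insert t T, sg k t T * (sg k u (insert t T) * c (insert u (insert t T))) := by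
    intro t _
    rw [bd_apply, Finset.mul_sum]
  rw [Finset.sum_congr rfl h1, Finset.sum_sigma']
  show _ = (0 : k)
  refine Finset.sum_involution (fun p _ => ⟨p.2, p.1⟩) ?_ ?_ ?_ ?_
  · rintro ⟨t, u⟩ hp
    simp only [Finset.mem_sigma, Finset.mem_sdiff, Finset.mem_univ, true_and,
      Finset.mem_insert, not_or] at hp
    obtain ⟨ht, hut, hu⟩ := hp
    have e1 : sg k u (insert t T) = s1 k t u * sg k u T := sg_insert u t T ht
    have e2 : sg k t (insert u T) = s1 k u t * sg k t T := sg_insert t u T hu
    have e3 : insert t (insert u T) = insert u (insert t T) := Finset.insert_comm _ _ _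
    have e4 : s1 k t u = - s1 k u t := by
      have h := s1_mul_s1 (k := k) u t hut
      have h' := s1_mul_self (k := k) u t
      calc s1 k t u = (s1 k u t * s1 k u t) * s1 k t u := by rw [h', one_mul]
        _ = s1 k u t * (s1 k u t * s1 k t u) := by ring
        _ = - s1 k u t := by rw [h]; ring
    show sg k t T * (sg k u (insert t T) * c (insert u (insert t T))) +
      sg k u T * (sg k t (insert u T) * c (insert t (insert u T))) = 0
    rw [e1, e2, e3, e4]; ring
  · rintro ⟨t, u⟩ hp _ h
    simp only [Finset.mem_sigma, Finset.mem_sdiff, Finset.mem_univ, true_and,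
      Finset.mem_insert, not_or] at hp
    simp only [Sigma.mk.injEq] at h
    exact hp.2.1 h.1
  · rintro ⟨t, u⟩ hp
    simp only [Finset.mem_sigma, Finset.mem_sdiff, Finset.mem_univ, true_and,
      Finset.mem_insert, not_or] at hp ⊢
    exact ⟨hp.2.2, fun h => hp.2.1 h.symm, hp.1⟩
  · rintro ⟨t, u⟩ _
    rfl

lemma bd_sub (b c : Finset V → k) : bd (b - c) = bd b - bd c := by
  funext T
  simp only [bd_apply, Pi.sub_apply, mul_sub, Finset.sum_sub_distrib]

lemma bd_smul (a : k) (c : Finset V → k) : bd (a • c) = a • bd c := by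
  funext T
  simp only [bd_apply, Pi.smul_apply, smul_eq_mul, Finset.mul_sum]
  exact Finset.sum_congr rfl (fun t _ => by ring)

lemma bd_sum {ι : Type*} (s : Finset ι) (c : ι → Finset V → k) :
    bd (∑ i ∈ s, c i) = ∑ i ∈ s, bd (c i) := by
  funext T
  simp only [bd_apply, Finset.sum_apply, Finset.mul_sum]
  exact Finset.sum_comm

lemma bd_zero : bd (0 : Finset V → k) = 0 := by
  funext T; simp [bd_apply]

/-- A nonzero coefficient of the boundary comes from a nonzero coefficient of the chain. -/
lemma exists_of_bd_ne (c : Finset V → k) (T : Finset V) (h : bd c T ≠ 0) :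
    ∃ t, t ∉ T ∧ c (insert t T) ≠ 0 := by
  by_contra hcon
  push Not at hcon
  apply h
  rw [bd_apply]
  refine Finset.sum_eq_zero (fun t ht => ?_)
  simp only [Finset.mem_sdiff, Finset.mem_univ, true_and] at ht
  rw [hcon t ht, mul_zero]

/-! ### Facets and purity -/

lemma link_complex {Δ : Set (Finset V)} (hΔ : IsComplex Δ) (F : Finset V) :
    IsComplex (link Δ F) := by
  rintro G ⟨h1, h2⟩ H hHG
  exact ⟨h1.mono_right hHG, hΔ _ h2 _ (Finset.union_subset_union_right hHG)⟩

lemma exists_facet (Δ : Set (Finset V)) {F : Finset V} (hF : F ∈ Δ) :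
    ∃ P, F ⊆ P ∧ Maximal (· ∈ Δ) P := by
  obtain ⟨P, hP, hm⟩ := (Set.toFinite Δ).exists_le_maximal hF
  exact ⟨P, hP, hm⟩

/-- A complex satisfying `(S_2)` is pure; more precisely, all facets containing a given face have
the same number of elements. -/
lemma pure_of_serre {Δ : Set (Finset V)} (hΔ : IsComplex Δ) {ℓ : ℕ} (hℓ : 2 ≤ ℓ)
    (hS : Serre k Δ ℓ) : ∀ (n : ℕ) (F : Finset V), Fintype.card V - F.card = n → F ∈ Δ →
      ∀ P Q, Maximal (· ∈ Δ) P → Maximal (· ∈ Δ) Q → F ⊆ P → F ⊆ Q → P.card = Q.card := by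
  intro n
  induction n using Nat.strong_induction_on with
  | _ n ih =>
  intro F hn hF P Q hP hQ hFP hFQ
  -- the induction hypothesis for `insert v F`
  have ih' : ∀ v, v ∉ F → insert v F ∈ Δ → ∀ P' Q', Maximal (· ∈ Δ) P' → Maximal (· ∈ Δ) Q' →
      insert v F ⊆ P' → insert v F ⊆ Q' → P'.card = Q'.card := by
    intro v hv hvF P' Q' hP' hQ' h1 h2
    have hc : (insert v F).card = F.card + 1 := Finset.card_insert_of_notMem hv
    have hle : (insert v F).card ≤ Fintype.card V := Finset.card_le_univ _
    exact ih (Fintype.card V - (insert v F).card) (by omega) (insert v F) rfl hvF P' Q' hP' hQ'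
      h1 h2
  by_cases hPF : P = F
  · -- `F` is a facet
    subst hPF
    have := hP.eq_of_le hQ.prop hFQ
    rw [this]
  by_cases hQF : Q = F
  · subst hQF
    have := hQ.eq_of_le hP.prop hFP
    rw [this]
  obtain ⟨p, hpP, hpF⟩ : ∃ p ∈ P, p ∉ F := by
    by_contra hcon
    push Not at hcon
    exact hPF (Finset.Subset.antisymm hcon hFP)
  obtain ⟨q, hqQ, hqF⟩ : ∃ q ∈ Q, q ∉ F := by
    by_contra hcon
    push Not at hcon
    exact hQF (Finset.Subset.antisymm hcon hFQ)
  have hpFP : insert p F ⊆ P := Finset.insert_subset hpP hFP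
  have hqFQ : insert q F ⊆ Q := Finset.insert_subset hqQ hFQ
  have hpΔ : insert p F ∈ Δ := hΔ _ hP.prop _ hpFP
  have hqΔ : insert q F ∈ Δ := hΔ _ hQ.prop _ hqFQ
  by_cases hdim : ∃ G ∈ link Δ F, 1 < G.card
  · -- the link is connected
    have hV := hS F hF 1 (by omega) hdim
    by_cases hpq : p = q
    · subst hpq
      exact ih' p hpF hpΔ P Q hP hQ hpFP hqFQ
    let c : Finset V → k := fun T => if T = {p} then 1 else if T = {q} then -1 else 0
    have hpq' : ({q} : Finset V) ≠ {p} := fun h => hpq (Finset.singleton_injective h).symm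
    have hcc : IsChain (link Δ F) 1 c := by
      intro T hT
      by_cases h1 : T = {p}
      · subst h1
        refine ⟨⟨Finset.disjoint_singleton_right.2 hpF, ?_⟩, Finset.card_singleton p⟩
        rwa [Finset.union_comm, ← Finset.insert_eq]
      by_cases h2 : T = {q}
      · subst h2
        refine ⟨⟨Finset.disjoint_singleton_right.2 hqF, ?_⟩, Finset.card_singleton q⟩
        rwa [Finset.union_comm, ← Finset.insert_eq]
      exact absurd (by simp only [c, if_neg h1, if_neg h2]) hT
    have hc0 : bd c = 0 := by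
      funext T
      rw [bd_apply]
      by_cases hT : T = ∅
      · subst hT
        simp only [Finset.sdiff_empty]
        have : ∀ t ∈ (univ : Finset V), sg k t ∅ * c (insert t ∅) =
            (if t = p then 1 else 0) - (if t = q then 1 else 0) := by
          intro t _
          have h1 : sg k t ∅ = 1 := by unfold sg; simp
          rw [h1, one_mul]
          show (if insert t (∅ : Finset V) = {p} then (1 : k) else
            if insert t (∅ : Finset V) = {q} then -1 else 0) = _
          simp only [insert_empty_eq, Finset.singleton_inj]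
          by_cases ha : t = p
          · subst ha
            rw [if_pos rfl, if_pos rfl, if_neg hpq]; ring
          · rw [if_neg ha, if_neg ha]
            by_cases hb : t = q
            · rw [if_pos hb, if_pos hb]; ring
            · rw [if_neg hb, if_neg hb]; ring
        rw [Finset.sum_congr rfl this, Finset.sum_sub_distrib]
        simp
      · refine Finset.sum_eq_zero (fun t ht => ?_)
        simp only [Finset.mem_sdiff, Finset.mem_univ, true_and] at ht
        have hne : ∀ r : V, insert t T ≠ {r} := by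
          intro r hr
          have : (insert t T).card = 1 := by rw [hr, Finset.card_singleton]
          rw [Finset.card_insert_of_notMem ht] at this
          exact hT (Finset.card_eq_zero.1 (by omega))
        have : c (insert t T) = 0 := by
          simp only [c, if_neg (hne p), if_neg (hne q)]
        rw [this, mul_zero]
    obtain ⟨b, hb, hbc⟩ := hV c hcc hc0
    -- the indicator of the vertices lying in a facet of the same size as `P`
    classical
    let φ : V → k := fun v =>
      if ∃ P', Maximal (· ∈ Δ) P' ∧ insert v F ⊆ P' ∧ P'.card = P.card then 1 else 0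
    have hφ : ∀ u v, u ≠ v → b {u, v} ≠ 0 → φ u = φ v := by
      intro u v huv hne
      obtain ⟨⟨hdis, hmem⟩, _⟩ := hb _ hne
      obtain ⟨R, hR, hRm⟩ := exists_facet Δ hmem
      have huF : u ∉ F := fun h => (Finset.disjoint_left.1 hdis h) (by simp)
      have hvF : v ∉ F := fun h => (Finset.disjoint_left.1 hdis h) (by simp)
      have hur : insert u F ⊆ R := by
        refine Finset.insert_subset (hR ?_) (fun x hx => hR (Finset.mem_union_left _ hx))
        exact Finset.mem_union_right _ (by simp)
      have hvr : insert v F ⊆ R := by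
        refine Finset.insert_subset (hR ?_) (fun x hx => hR (Finset.mem_union_left _ hx))
        exact Finset.mem_union_right _ (by simp)
      have huΔ : insert u F ∈ Δ := hΔ _ hRm.prop _ hur
      have hvΔ : insert v F ∈ Δ := hΔ _ hRm.prop _ hvr
      have key : (∃ P', Maximal (· ∈ Δ) P' ∧ insert u F ⊆ P' ∧ P'.card = P.card) ↔
          (∃ P', Maximal (· ∈ Δ) P' ∧ insert v F ⊆ P' ∧ P'.card = P.card) := by
        constructor
        · rintro ⟨P', h1, h2, h3⟩
          exact ⟨R, hRm, hvr, by rw [ih' u huF huΔ R P' hRm h1 hur h2, h3]⟩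
        · rintro ⟨P', h1, h2, h3⟩
          exact ⟨R, hRm, hur, by rw [ih' v hvF hvΔ R P' hRm h1 hvr h2, h3]⟩
      simp only [φ]
      by_cases h : ∃ P', Maximal (· ∈ Δ) P' ∧ insert u F ⊆ P' ∧ P'.card = P.card
      · rw [if_pos h, if_pos (key.1 h)]
      · rw [if_neg h, if_neg (fun h' => h (key.2 h'))]
    have hsum : ∑ v : V, φ v * bd b {v} = 0 := by
      have h1 : ∀ v ∈ (univ : Finset V), φ v * bd b {v} =
          ∑ t ∈ univ \ {v}, φ v * (sg k t {v} * b (insert t {v})) := by
        intro v _
        rw [bd_apply, Finset.mul_sum]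
      rw [Finset.sum_congr rfl h1, Finset.sum_sigma']
      refine Finset.sum_involution (fun p _ => ⟨p.2, p.1⟩) ?_ ?_ ?_ ?_
      · rintro ⟨v, t⟩ hp
        simp only [Finset.mem_sigma, Finset.mem_univ, Finset.mem_sdiff, true_and,
          Finset.mem_singleton] at hp
        show φ v * (sg k t {v} * b (insert t {v})) + φ t * (sg k v {t} * b (insert v {t})) = 0
        have e1 : insert v ({t} : Finset V) = insert t {v} := Finset.pair_comm _ _
        have e2 : sg k t {v} = s1 k v t := by unfold sg; simp
        have e3 : sg k v {t} = s1 k t v := by unfold sg; simp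
        have e4 : s1 k t v = - s1 k v t := by
          have h := s1_mul_s1 (k := k) v t (fun h => hp h.symm)
          have h' := s1_mul_self (k := k) v t
          calc s1 k t v = (s1 k v t * s1 k v t) * s1 k t v := by rw [h', one_mul]
            _ = s1 k v t * (s1 k v t * s1 k t v) := by ring
            _ = - s1 k v t := by rw [h]; ring
        rw [e1, e2, e3, e4]
        by_cases h0 : b (insert t {v}) = 0
        · rw [h0]; ring
        · have := hφ t v hp h0
          rw [this]; ring
      · rintro ⟨v, t⟩ hp _ h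
        simp only [Finset.mem_sigma, Finset.mem_univ, Finset.mem_sdiff, true_and,
          Finset.mem_singleton] at hp
        simp only [Sigma.mk.injEq] at h
        exact hp h.1
      · rintro ⟨v, t⟩ hp
        simp only [Finset.mem_sigma, Finset.mem_univ, Finset.mem_sdiff, true_and,
          Finset.mem_singleton] at hp ⊢
        exact fun h => hp h.symm
      · rintro ⟨v, t⟩ _
        rfl
    rw [hbc] at hsum
    have hcv : ∀ v ∈ (univ : Finset V), φ v * c {v} =
        (if v = p then φ p else 0) - (if v = q then φ q else 0) := by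
      intro v _
      show φ v * (if ({v} : Finset V) = {p} then (1 : k) else
        if ({v} : Finset V) = {q} then -1 else 0) = _
      simp only [Finset.singleton_inj]
      by_cases ha : v = p
      · subst ha
        rw [if_pos rfl, if_pos rfl, if_neg hpq]; ring
      · rw [if_neg ha, if_neg ha]
        by_cases hb : v = q
        · subst hb
          rw [if_pos rfl, if_pos rfl]; ring
        · rw [if_neg hb, if_neg hb]; ring
    rw [Finset.sum_congr rfl hcv, Finset.sum_sub_distrib] at hsum
    simp only [Finset.sum_ite_eq', Finset.mem_univ, if_true] at hsum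
    have hφp : φ p = 1 := by
      simp only [φ]
      rw [if_pos ⟨P, hP, hpFP, rfl⟩]
    have hφq : φ q = 1 := by rw [← sub_eq_zero.1 hsum, hφp]
    have hex : ∃ P', Maximal (· ∈ Δ) P' ∧ insert q F ⊆ P' ∧ P'.card = P.card := by
      by_contra hcon
      simp only [φ] at hφq
      rw [if_neg hcon] at hφq
      exact zero_ne_one hφq
    obtain ⟨P', h1, h2, h3⟩ := hex
    rw [← h3, ih' q hqF hqΔ P' Q h1 hQ h2 hqFQ]
  · -- all faces of the link have at most one element
    push Not at hdim
    have hcard : ∀ R, Maximal (· ∈ Δ) R → F ⊆ R → R.card ≤ F.card + 1 := by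
      intro R hR hFR
      have : R \ F ∈ link Δ F := by
        refine ⟨Finset.disjoint_sdiff, ?_⟩
        rw [Finset.union_sdiff_of_subset hFR]
        exact hR.prop
      have h1 := hdim _ this
      have h2 := Finset.card_sdiff_add_card_eq_card hFR
      omega
    have h1 : F.card + 1 ≤ P.card := by
      rw [← Finset.card_insert_of_notMem hpF]; exact Finset.card_le_card hpFP
    have h2 : F.card + 1 ≤ Q.card := by
      rw [← Finset.card_insert_of_notMem hqF]; exact Finset.card_le_card hqFQ
    have h3 := hcard P hP hFP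
    have h4 := hcard Q hQ hFQ
    omega

/-! ### Splitting off the faces containing a given set -/

variable (k) in
/-- The part of the chain `b` on the faces containing `τ`, as a chain of the link of `τ`. -/
def part (τ : Finset V) (b : Finset V → k) : Finset V → k :=
  fun H => if Disjoint τ H then ep k τ H * b (τ ∪ H) else 0

variable (k) in
/-- The join of `τ` with a chain `e` of the link of `τ`. -/
def join (τ : Finset V) (e : Finset V → k) : Finset V → k :=
  fun T => if τ ⊆ T then ep k τ (T \ τ) * e (T \ τ) else 0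

/-- The boundary of the part of a chain. -/
lemma bd_part (τ : Finset V) (b : Finset V → k) (H : Finset V) (hd : Disjoint τ H) :
    bd (part k τ b) H = (-1) ^ τ.card * (ep k τ H * bd b (τ ∪ H)) := by
  rw [bd_apply, bd_apply, Finset.mul_sum, Finset.mul_sum]
  symm
  refine Finset.sum_subset_zero_on_sdiff ?_ ?_ ?_
  · intro t ht
    simp only [Finset.mem_sdiff, Finset.mem_univ, true_and, Finset.mem_union, not_or] at ht ⊢
    exact ht.2
  · intro t ht
    simp only [Finset.mem_sdiff, Finset.mem_univ, true_and, Finset.mem_union, not_or,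
      not_and, not_not] at ht
    have htτ : t ∈ τ := by
      by_contra h
      exact ht.1 (ht.2 h)
    have : part k τ b (insert t H) = 0 := by
      unfold part
      rw [if_neg]
      intro h
      exact (Finset.disjoint_left.1 h htτ) (Finset.mem_insert_self _ _)
    rw [this, mul_zero]
  · intro t ht
    simp only [Finset.mem_sdiff, Finset.mem_univ, true_and, Finset.mem_union, not_or] at ht
    have hd' : Disjoint τ (insert t H) := Finset.disjoint_insert_right.2 ⟨ht.1, hd⟩
    have e1 : part k τ b (insert t H) = ep k τ (insert t H) * b (insert t (τ ∪ H)) := by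
      unfold part
      rw [if_pos hd', Finset.union_insert]
    have e2 := sign_rel (k := k) t τ H hd ht.1 ht.2
    have e3 := ep_mul_self (k := k) τ (insert t H)
    have e4 := ep_mul_self (k := k) τ H
    have e5 : ((-1 : k) ^ τ.card) * ((-1) ^ τ.card) = 1 := by
      rw [← mul_pow]; simp
    have e6 : sg k t H * ep k τ (insert t H) =
        (-1) ^ τ.card * (ep k τ H * sg k t (τ ∪ H)) := by
      calc sg k t H * ep k τ (insert t H)
          = ((-1 : k) ^ τ.card * (-1) ^ τ.card) * (ep k τ H * ep k τ H) *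
            (sg k t H * ep k τ (insert t H)) := by rw [e4, e5]; ring
        _ = (-1) ^ τ.card * ep k τ H * (((-1) ^ τ.card * (ep k τ H * sg k t H)) *
            ep k τ (insert t H)) := by ring
        _ = (-1) ^ τ.card * ep k τ H * ((sg k t (τ ∪ H) * ep k τ (insert t H)) *
            ep k τ (insert t H)) := by rw [← e2]
        _ = (-1) ^ τ.card * ep k τ H * (sg k t (τ ∪ H) *
            (ep k τ (insert t H) * ep k τ (insert t H))) := by ring
        _ = _ := by rw [e3]; ring
    rw [e1]
    calc (-1) ^ τ.card * (ep k τ H * (sg k t (τ ∪ H) * b (insert t (τ ∪ H))))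
        = ((-1) ^ τ.card * (ep k τ H * sg k t (τ ∪ H))) * b (insert t (τ ∪ H)) := by ring
      _ = (sg k t H * ep k τ (insert t H)) * b (insert t (τ ∪ H)) := by rw [← e6]
      _ = _ := by ring

/-- The boundary of a join, on the faces containing `τ`. -/
lemma bd_join (τ : Finset V) (e : Finset V → k) (he : ∀ H, e H ≠ 0 → Disjoint τ H)
    (T : Finset V) (hT : τ ⊆ T) :
    bd (join k τ e) T = (-1) ^ τ.card * (ep k τ (T \ τ) * bd e (T \ τ)) := by
  rw [bd_apply, bd_apply, Finset.mul_sum, Finset.mul_sum]
  have hTu : τ ∪ (T \ τ) = T := Finset.union_sdiff_of_subset hT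
  refine Finset.sum_subset_zero_on_sdiff ?_ ?_ ?_
  · intro t ht
    simp only [Finset.mem_sdiff, Finset.mem_univ, true_and, not_and] at ht ⊢
    exact fun h => absurd h ht
  · intro t ht
    simp only [Finset.mem_sdiff, Finset.mem_univ, true_and, not_and, not_not] at ht
    have htτ : t ∈ τ := ht.1 ht.2
    have : e (insert t (T \ τ)) = 0 := by
      by_contra h
      exact (Finset.disjoint_left.1 (he _ h) htτ) (Finset.mem_insert_self _ _)
    rw [this, mul_zero, mul_zero, mul_zero]
  · intro t ht
    simp only [Finset.mem_sdiff, Finset.mem_univ, true_and] at ht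
    have htτ : t ∉ τ := fun h => ht (hT h)
    have htH : t ∉ T \ τ := fun h => ht (Finset.sdiff_subset h)
    have e1 : insert t T \ τ = insert t (T \ τ) := Finset.insert_sdiff_of_notMem _ htτ
    have e2 : join k τ e (insert t T) = ep k τ (insert t (T \ τ)) * e (insert t (T \ τ)) := by
      unfold join
      rw [if_pos (hT.trans (Finset.subset_insert _ _)), e1]
    have e3 := sign_rel (k := k) t τ (T \ τ) Finset.disjoint_sdiff htτ htH
    rw [hTu] at e3
    rw [e2]
    calc sg k t T * (ep k τ (insert t (T \ τ)) * e (insert t (T \ τ)))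
        = (sg k t T * ep k τ (insert t (T \ τ))) * e (insert t (T \ τ)) := by ring
      _ = _ := by rw [e3]; ring

/-! ### The theorem -/

/-- `(S_ℓ)` is inherited by `Δ_A` for excellent `A`. -/
theorem serre_removal {Δ A : Set (Finset V)} (hΔ : IsComplex Δ) (hA : Excellent Δ A) {ℓ : ℕ}
    (hS : Serre k Δ ℓ) : Serre k (removal Δ A) ℓ := by
  classical
  obtain ⟨⟨hAΔ, hind⟩, hexc⟩ := hA
  rintro G ⟨hGΔ, hGA⟩ j hj ⟨T', ⟨hT'd, hT'Δ, hT'A⟩, hT'c⟩ c hc hc0
  have hremC : IsComplex (removal Δ A) := by
    rintro F ⟨h1, h2⟩ H hHF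
    exact ⟨hΔ _ h1 _ hHF, fun σ hσ h => h2 σ hσ (h.trans hHF)⟩
  have hlr : ∀ T, T ∈ link (removal Δ A) G → T ∈ link Δ G := fun T hT => ⟨hT.1, hT.2.1⟩
  rcases Nat.eq_zero_or_pos j with rfl | hjpos
  · -- `H̃_{-1}`: the link has a vertex
    obtain ⟨v, hv⟩ : T'.Nonempty := Finset.card_pos.1 hT'c
    have hvl : ({v} : Finset V) ∈ link (removal Δ A) G :=
      link_complex hremC G T' ⟨hT'd, hT'Δ, hT'A⟩ _ (Finset.singleton_subset_iff.2 hv)
    refine ⟨fun T => if T = {v} then c ∅ else 0, ?_, ?_⟩
    · intro T hT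
      by_cases h : T = {v}
      · subst h; exact ⟨hvl, by simp⟩
      · exact absurd (if_neg h) hT
    · funext T
      rw [bd_apply]
      by_cases hT : T = ∅
      · subst hT
        have : ∀ t ∈ univ \ (∅ : Finset V), sg k t ∅ *
            (if insert t (∅ : Finset V) = {v} then c ∅ else 0) = if t = v then c ∅ else 0 := by
          intro t _
          have h1 : sg k t ∅ = 1 := by unfold sg; simp
          rw [h1, one_mul]
          simp only [insert_empty_eq, Finset.singleton_inj]
        rw [Finset.sum_congr rfl this]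
        simp
      · have hcT : c T = 0 := by
          by_contra h
          exact hT (Finset.card_eq_zero.1 (hc T h).2)
        rw [hcT]
        refine Finset.sum_eq_zero (fun t ht => ?_)
        simp only [Finset.mem_sdiff, Finset.mem_univ, true_and] at ht
        have hne : insert t T ≠ {v} := by
          intro hr
          have : (insert t T).card = 1 := by rw [hr, Finset.card_singleton]
          rw [Finset.card_insert_of_notMem ht] at this
          exact hT (Finset.card_eq_zero.1 (by omega))
        rw [if_neg hne, mul_zero]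
  -- a facet containing `G ∪ T'` is larger than `G ∪ T'`
  obtain ⟨P0, hP0, hP0m⟩ := exists_facet Δ hT'Δ
  have hP0card : G.card + j + 2 ≤ P0.card := by
    obtain ⟨σ, hσ, hσP⟩ := hexc P0 hP0m
    have hne : G ∪ T' ≠ P0 := fun h => hT'A σ hσ (h ▸ hσP)
    have hlt : (G ∪ T').card < P0.card := Finset.card_lt_card (hP0.ssubset_of_ne hne)
    rw [Finset.card_union_of_disjoint hT'd] at hlt
    omega
  have hGP0 : G ⊆ P0 := Finset.subset_union_left.trans hP0
  -- the cycle is a boundary in the link of `G` in `Δ`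
  obtain ⟨b, hb, hbc⟩ := hS G hGΔ j hj ⟨T', ⟨hT'd, hT'Δ⟩, hT'c⟩ c
    (fun T hT => ⟨hlr T (hc T hT).1, (hc T hT).2⟩) hc0
  -- the sets `σ \ G`, `σ ∈ A`, `σ ∪ G ∈ Δ`
  let 𝒯 : Finset (Finset V) := univ.filter (fun τ => ∃ σ ∈ A, σ ∪ G ∈ Δ ∧ τ = σ \ G)
  have h𝒯 : ∀ τ, τ ∈ 𝒯 ↔ ∃ σ ∈ A, σ ∪ G ∈ Δ ∧ τ = σ \ G := by
    intro τ; simp [𝒯]
  have huniq : ∀ T, T ∈ link Δ G → ∀ τ ∈ 𝒯, ∀ τ' ∈ 𝒯, τ ⊆ T → τ' ⊆ T → τ = τ' := by
    rintro T ⟨hTd, hTΔ⟩ τ hτ τ' hτ' h1 h2
    obtain ⟨σ, hσ, _, rfl⟩ := (h𝒯 τ).1 hτ
    obtain ⟨σ', hσ', _, rfl⟩ := (h𝒯 τ').1 hτ'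
    have hs : σ ⊆ G ∪ T := by
      intro x hx
      by_cases hxG : x ∈ G
      · exact Finset.mem_union_left _ hxG
      · exact Finset.mem_union_right _ (h1 (Finset.mem_sdiff.2 ⟨hx, hxG⟩))
    have hs' : σ' ⊆ G ∪ T := by
      intro x hx
      by_cases hxG : x ∈ G
      · exact Finset.mem_union_left _ hxG
      · exact Finset.mem_union_right _ (h2 (Finset.mem_sdiff.2 ⟨hx, hxG⟩))
    have : σ = σ' := by
      by_contra hne
      exact hind σ hσ σ' hσ' hne (hΔ _ hTΔ _ (Finset.union_subset hs hs'))
    rw [this]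
  -- faces of the link in `Δ` outside the link in `Δ_A` contain an element of `𝒯`
  have hout : ∀ T, T ∈ link Δ G → (∀ τ ∈ 𝒯, ¬ τ ⊆ T) → T ∈ link (removal Δ A) G := by
    rintro T ⟨hTd, hTΔ⟩ h
    refine ⟨hTd, hTΔ, fun σ hσ hσT => ?_⟩
    refine h (σ \ G) ((h𝒯 _).2 ⟨σ, hσ, ?_, rfl⟩) ?_
    · exact hΔ _ hTΔ _ (Finset.union_subset hσT Finset.subset_union_left)
    · intro x hx
      rw [Finset.mem_sdiff] at hx
      rcases Finset.mem_union.1 (hσT hx.1) with h' | h'
      · exact absurd h' hx.2
      · exact h'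
  -- the chains `e_τ`
  have hex : ∀ τ ∈ 𝒯, ∃ e : Finset V → k, (∀ H, e H ≠ 0 → Disjoint τ H ∧ τ ∪ H ∈ link Δ G ∧
      τ.card + H.card = j + 2) ∧ bd e = part k τ b := by
    intro τ hτ
    obtain ⟨σ, hσ, hσG, rfl⟩ := (h𝒯 τ).1 hτ
    have hdis : Disjoint G (σ \ G) := Finset.disjoint_sdiff
    have hmem : G ∪ (σ \ G) ∈ Δ := by
      rw [Finset.union_sdiff_self_eq_union, Finset.union_comm]; exact hσG
    have hpos : 1 ≤ (σ \ G).card := by
      rw [Nat.one_le_iff_ne_zero]
      intro h
      exact hGA σ hσ (Finset.sdiff_eq_empty_iff_subset.1 (Finset.card_eq_zero.1 h))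
    -- the part of `b` is a chain of the link of `G ∪ τ`
    have hpc : ∀ H, part k (σ \ G) b H ≠ 0 → H ∈ link Δ (G ∪ (σ \ G)) ∧
        (σ \ G).card + H.card = j + 1 := by
      intro H hH
      unfold part at hH
      by_cases hd : Disjoint (σ \ G) H
      · rw [if_pos hd] at hH
        obtain ⟨⟨h1, h2⟩, h3⟩ := hb _ (right_ne_zero_of_mul hH)
        rw [Finset.card_union_of_disjoint hd] at h3
        refine ⟨⟨?_, ?_⟩, h3⟩
        · rw [Finset.disjoint_union_left]
          exact ⟨(Finset.disjoint_union_right.1 h1).2, hd⟩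
        · rw [Finset.union_assoc]; exact h2
      · rw [if_neg hd] at hH; exact absurd rfl hH
    by_cases hbig : j + 1 < (σ \ G).card
    · -- the part is zero
      refine ⟨0, fun H hH => absurd rfl hH, ?_⟩
      rw [bd_zero]
      funext H
      by_contra h
      have := (hpc H (fun h' => h h'.symm)).2
      omega
    push Not at hbig
    -- it is a cycle
    have hcyc : bd (part k (σ \ G) b) = 0 := by
      funext H
      show _ = (0 : k)
      by_cases hd : Disjoint (σ \ G) H
      · rw [bd_part _ _ _ hd, hbc]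
        have : c ((σ \ G) ∪ H) = 0 := by
          by_contra h
          obtain ⟨⟨_, _, h3⟩, _⟩ := hc _ h
          refine h3 σ hσ ?_
          intro x hx
          by_cases hxG : x ∈ G
          · exact Finset.mem_union_left _ hxG
          · exact Finset.mem_union_right _
              (Finset.mem_union_left _ (Finset.mem_sdiff.2 ⟨hx, hxG⟩))
        rw [this]; ring
      · by_contra h
        obtain ⟨t, _, h2⟩ := exists_of_bd_ne _ _ h
        unfold part at h2
        rw [if_neg (fun h' => hd (h'.mono_right (Finset.subset_insert _ _)))] at h2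
        exact h2 rfl
    -- the link of `G ∪ τ` has large faces, by purity
    have hℓ : 2 ≤ ℓ := by omega
    have hlarge : ∃ H ∈ link Δ (G ∪ (σ \ G)), j + 1 - (σ \ G).card < H.card := by
      obtain ⟨R, hR, hRm⟩ := exists_facet Δ hmem
      have hRP : R.card = P0.card :=
        pure_of_serre hΔ hℓ hS _ G rfl hGΔ R P0 hRm hP0m (Finset.subset_union_left.trans hR) hGP0
      refine ⟨R \ (G ∪ (σ \ G)), ⟨Finset.disjoint_sdiff, ?_⟩, ?_⟩
      · rw [Finset.union_sdiff_of_subset hR]; exact hRm.prop
      · have h1 := Finset.card_sdiff_add_card_eq_card hR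
        have h2 := Finset.card_union_of_disjoint hdis
        omega
    obtain ⟨e, he, hbe⟩ := hS (G ∪ (σ \ G)) hmem (j + 1 - (σ \ G).card) (by omega) hlarge
      (part k (σ \ G) b) (fun H hH => ⟨(hpc H hH).1, by have := (hpc H hH).2; omega⟩) hcyc
    refine ⟨e, fun H hH => ?_, hbe⟩
    obtain ⟨⟨h1, h2⟩, h3⟩ := he H hH
    rw [Finset.disjoint_union_left] at h1
    refine ⟨h1.2, ⟨?_, ?_⟩, by omega⟩
    · exact Finset.disjoint_union_right.2 ⟨hdis, h1.1⟩
    · rw [← Finset.union_assoc]; exact h2
  choose! e he hbe using hex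
  -- the corrected chain
  refine ⟨b - ∑ τ ∈ 𝒯, ((-1 : k) ^ τ.card) • bd (join k τ (e τ)), ?_, ?_⟩
  swap
  · rw [bd_sub, bd_sum, hbc]
    have : ∀ τ ∈ 𝒯, bd (((-1 : k) ^ τ.card) • bd (join k τ (e τ))) = 0 := by
      intro τ _
      rw [bd_smul, bd_bd, smul_zero]
    rw [Finset.sum_eq_zero this, sub_zero]
  · intro T hT
    -- the faces occurring in the joins
    have hjoin : ∀ τ ∈ 𝒯, ∀ U, join k τ (e τ) U ≠ 0 → τ ⊆ U ∧ U ∈ link Δ G ∧ U.card = j + 2 := by
      intro τ hτ U hU
      unfold join at hU
      by_cases hτU : τ ⊆ U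
      · rw [if_pos hτU] at hU
        obtain ⟨h1, h2, h3⟩ := he τ hτ _ (right_ne_zero_of_mul hU)
        rw [Finset.union_sdiff_of_subset hτU] at h2
        have := Finset.card_sdiff_add_card_eq_card hτU
        exact ⟨hτU, h2, by omega⟩
      · rw [if_neg hτU] at hU; exact absurd rfl hU
    have hTΓ : T ∈ link Δ G ∧ T.card = j + 1 := by
      by_contra hcon
      apply hT
      have h1 : b T = 0 := by
        by_contra h
        exact hcon (hb T h)
      rw [Pi.sub_apply, h1, Finset.sum_apply, zero_sub, neg_eq_zero]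
      refine Finset.sum_eq_zero (fun τ hτ => ?_)
      rw [Pi.smul_apply, smul_eq_mul]
      by_contra h
      obtain ⟨t, ht, h2⟩ := exists_of_bd_ne _ _ (right_ne_zero_of_mul h)
      obtain ⟨_, h3, h4⟩ := hjoin τ hτ _ h2
      rw [Finset.card_insert_of_notMem ht] at h4
      exact hcon ⟨link_complex hΔ G _ h3 _ (Finset.subset_insert _ _), by omega⟩
    refine ⟨hout T hTΓ.1 (fun τ0 hτ0 hτ0T => hT ?_), hTΓ.2⟩
    -- the coefficient of a face containing `τ0` vanishes
    have hzero : ∀ τ ∈ 𝒯, τ ≠ τ0 → bd (join k τ (e τ)) T = 0 := by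
      intro τ hτ hne
      by_contra h
      obtain ⟨t, _, h2⟩ := exists_of_bd_ne _ _ h
      obtain ⟨h3, h4, _⟩ := hjoin τ hτ _ h2
      exact hne (huniq _ h4 τ hτ τ0 hτ0 h3 (hτ0T.trans (Finset.subset_insert _ _)))
    rw [Pi.sub_apply, Finset.sum_apply, Finset.sum_eq_single_of_mem τ0 hτ0
      (fun τ hτ hne => by rw [Pi.smul_apply, hzero τ hτ hne, smul_zero])]
    rw [Pi.smul_apply, smul_eq_mul, bd_join τ0 (e τ0) (fun H hH => (he τ0 hτ0 H hH).1) T hτ0T,
      hbe τ0 hτ0]
    have h1 : part k τ0 b (T \ τ0) = ep k τ0 (T \ τ0) * b T := by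
      unfold part
      rw [if_pos Finset.disjoint_sdiff, Finset.union_sdiff_of_subset hτ0T]
    rw [h1]
    have e4 := ep_mul_self (k := k) τ0 (T \ τ0)
    have e5 : ((-1 : k) ^ τ0.card) * ((-1) ^ τ0.card) = 1 := by
      rw [← mul_pow]; simp
    calc b T - (-1) ^ τ0.card * ((-1) ^ τ0.card * (ep k τ0 (T \ τ0) *
        (ep k τ0 (T \ τ0) * b T)))
        = b T - ((-1) ^ τ0.card * (-1) ^ τ0.card) *
          ((ep k τ0 (T \ τ0) * ep k τ0 (T \ τ0)) * b T) := by ring
      _ = 0 := by rw [e4, e5]; ring

/-- Let `k` be a field, `Δ` a finite simplicial complex and `A` an excellent set of faces of `Δ`.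
If `Δ` satisfies `(S_ℓ)` over `k`, then so does `Δ_A`. -/
theorem result (k : Type*) [Field k] (V : Type*) [Fintype V] [LinearOrder V]
    (Δ A : Set (Finset V)) (hΔ : IsComplex Δ) (hA : Excellent Δ A) (ℓ : ℕ)
    (hS : Serre k Δ ℓ) : Serre k (removal Δ A) ℓ :=
  serre_removal hΔ hA hS

end Pool.Agent.Results.MP_346585_al.SerreExcellent
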